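import Pool.Agent.H38.SE.TarB

/-!
# MP_eaeaf5_lc, module BS: reals of the extension live on supports in `H`
-/

set_option linter.unusedVariables false

open Ordinal Order Set
open scoped ZFSet

namespace SE

open SF

namespace BS47

theorem in1 {M : V → Prop} (k : ZFm M) {a : V} (ha : M a) : In M (cons a (fun _ => ∅)) :=
  (show In M (fun _ => ∅) from fun _ => k.mempty).cons ha

theorem in3 {M : V → Prop} (k : ZFm M) {a b c : V} (ha : M a) (hb : M b) (hc : M c) :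
    In M (cons a (cons b (cons c (fun _ => ∅)))) := ((in1 k hc).cons hb).cons ha

theorem in4 {M : V → Prop} (k : ZFm M) {a b c d : V} (ha : M a) (hb : M b) (hc : M c)
    (hd : M d) : In M (cons a (cons b (cons c (cons d (fun _ => ∅))))) := (in3 k hb hc hd).cons ha

/-- the conditions which decide the initial segment of length `n` -/
noncomputable def Fn (n P Y S : V) : V :=
  P.sep fun q => ∃ b ∈ S, dm b = n ∧ ZFSet.pair q b ∈ Y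

theorem tm_Fn : Tm ZFm (fun _ v => Fn (v 0) (v 1) (v 2) (v 3)) := by
  refine (Tm.sep (f := fun _ v => v 1)
    (R := fun _ v => ∃ b ∈ v 4, dm b = v 1 ∧ ZFSet.pair (v 0) b ∈ v 3) ?_ (Tm.var 1)).congr
    fun M k v hv => rfl
  exact (Dfb.bex (R := fun _ v => dm (v 0) = v 2 ∧ ZFSet.pair (v 1) (v 0) ∈ v 4) ktr_zfm
    (Tm.var 4) ((Dfb.eq (Tm.dm (Tm.var 0)) (Tm.var 2)).and
      (Dfb.pairMem (Tm.var 1) (Tm.var 0) (Tm.var 4)))).congr fun M k v hv => Iff.rfl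

/-- the sequence of the sets `Fn` -/
noncomputable def FS (P Y S : V) : V := resS om fun n => Fn n P Y S

theorem tm_FS : Tm ZFm (fun _ v => FS (v 0) (v 1) (v 2)) :=
  (Tm.resS Tm.om tm_Fn).congr fun M k v hv => rfl

theorem FS_mem {M : V → Prop} (k : ZFm M) {P Y S : V} (h1 : M P) (h2 : M Y) (h3 : M S) :
    M (FS P Y S) := by
  have h := tm_FS.1 M k _ (in3 k h1 h2 h3)
  exact h

/-- conditions below an element of `X ∩ A` -/
noncomputable def Xd (P X A R : V) : V := P.sep fun r => ∃ q ∈ X, q ∈ A ∧ ZFSet.pair r q ∈ R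

theorem tm_Xd : Tm ZFm (fun _ v => Xd (v 0) (v 1) (v 2) (v 3)) := by
  refine (Tm.sep (f := fun _ v => v 0)
    (R := fun _ v => ∃ q ∈ v 2, q ∈ v 3 ∧ ZFSet.pair (v 0) q ∈ v 4) ?_ (Tm.var 0)).congr
    fun M k v hv => rfl
  exact (Dfb.bex (R := fun _ v => v 0 ∈ v 4 ∧ ZFSet.pair (v 1) (v 0) ∈ v 5) ktr_zfm
    (Tm.var 2) ((Dfb.mem (Tm.var 0) (Tm.var 4)).and
      (Dfb.pairMem (Tm.var 1) (Tm.var 0) (Tm.var 5)))).congr fun M k v hv => Iff.rfl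

theorem Xd_mem {M : V → Prop} (k : ZFm M) {P X A R : V} (h1 : M P) (h2 : M X) (h3 : M A)
    (h4 : M R) : M (Xd P X A R) := by
  have h := tm_Xd.1 M k _ (in4 k h1 h2 h3 h4)
  exact h

/-- the value computed from `X` -/
noncomputable def Vl (S G X Y : V) : V :=
  (⋃₀ (S.sep fun b => ∃ q ∈ G, q ∈ X ∧ ZFSet.pair q b ∈ Y) : ZFSet)

theorem tm_Vl : Tm ZFm (fun _ v => Vl (v 0) (v 1) (v 2) (v 3)) := by
  refine (Tm.sUnion (Tm.sep (f := fun _ v => v 0)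
    (R := fun _ v => ∃ q ∈ v 2, q ∈ v 3 ∧ ZFSet.pair q (v 0) ∈ v 4) ?_ (Tm.var 0))).congr
    fun M k v hv => rfl
  exact (Dfb.bex (R := fun _ v => v 0 ∈ v 4 ∧ ZFSet.pair (v 0) (v 1) ∈ v 5) ktr_zfm
    (Tm.var 2) ((Dfb.mem (Tm.var 0) (Tm.var 4)).and
      (Dfb.pairMem (Tm.var 0) (Tm.var 1) (Tm.var 5)))).congr fun M k v hv => Iff.rfl

theorem Vl_mem {M : V → Prop} (k : ZFm M) {P X A R : V} (h1 : M P) (h2 : M X) (h3 : M A)
    (h4 : M R) : M (Vl P X A R) := by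
  have h := tm_Vl.1 M k _ (in4 k h1 h2 h3 h4)
  exact h

theorem resdm_mem {M : V → Prop} (k : ZFm M) {X : V} (h1 : M X) :
    M (resS X fun p => dm p) := by
  have h := (Tm.resS (Tm.var 0) (g := fun _ v => dm (v 0)) (Tm.dm (Tm.var 0))).1 M k _ (in1 k h1)
  exact h

theorem reslS_mem {M : V → Prop} (k : ZFm M) {X : V} (h1 : M X) :
    M (resS X fun i => insert i (lS i)) := by
  have h := (Tm.resS (Tm.var 0) (g := fun _ v => insert (v 0) (lS (v 0)))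
    (Tm.ins (Tm.var 0) (Tm.fst (Tm.snd (Tm.snd (Tm.var 0)))))).1 M k _ (in1 k h1)
  exact h

theorem mem_rg_resS {a : V} {F : V → V} {y : V} : y ∈ rg (resS a F) ↔ ∃ x ∈ a, y = F x := by
  rw [mem_rg]
  constructor
  · rintro ⟨x, hx⟩
    obtain ⟨x', hx', h⟩ := mem_resS.1 hx
    obtain ⟨rfl, rfl⟩ := ZFSet.pair_injective h
    exact ⟨_, hx', rfl⟩
  · rintro ⟨x, hx, rfl⟩
    exact ⟨x, mem_resS.2 ⟨x, hx, rfl⟩⟩

/-- a countable set of labels has a support in `H` -/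
theorem supp (hAC : T_AC) (hBA : T_BA) (hBJ : T_BJ) (hBR : T_BR) (D : Cx) (hD : D.Ok) (ρ E : V)
    (hc : Cld D.L ρ) (hρ : ρ ⊆ D.H) (hE : Ctbl D.N E) (hEρ : E ⊆ ρ) :
    ∃ s ∈ D.H, s ⊆ ρ ∧ Cld D.L s ∧ E ⊆ s := by
  have k : ZFm D.N := hD.zfc.toZFCm.toZFm
  obtain ⟨ac1, -, -, -, -, ac6⟩ := hAC D.N k
  obtain ⟨-, -, -, -, -, ba6, ba7⟩ := hBA
  obtain ⟨-, -, br3, br4, br5, -, -, -, -, br10⟩ := hBR D hD
  have hNE : D.N E := ac1 E hE
  have hf : D.N (resS E fun i => insert i (lS i)) := reslS_mem k hNE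
  have hS : Ctbl D.N (rg (resS E fun i => insert i (lS i))) :=
    ac6 E _ hf (svl_resS _ _) hE (by rw [dm_resS])
  have h0 : (∅ : V) ∈ D.H := by
    have := br10 0
    rwa [nS_zero] at this
  have hSH : rg (resS E fun i => insert i (lS i)) ⊆ D.H := by
    intro x hx
    obtain ⟨i, hi, rfl⟩ := mem_rg_resS.1 hx
    have hiH : i ∈ D.H := hρ (hEρ hi)
    have h1 : insert i ∅ ∈ D.H := (br4 i hiH ∅ h0).2.2
    have h2 : lS i ∈ D.H := (br5 _ h1).2.2.2.1 i (ZFSet.mem_insert_iff.2 (Or.inl rfl))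
    exact (br4 i hiH _ h2).2.2
  obtain ⟨-, c2⟩ := ba7 D.L ρ hc
  refine ⟨⋃₀ (rg (resS E fun i => insert i (lS i))), (br3 _ hS hSH).2, ?_, ?_, ?_⟩
  · intro x hx
    obtain ⟨z, hz, hxz⟩ := ZFSet.mem_sUnion.1 hx
    obtain ⟨i, hi, rfl⟩ := mem_rg_resS.1 hz
    exact (c2.1 i (hEρ hi)).2.2.2.2 hxz
  · refine ba6 D.L _ ?_
    intro z hz
    obtain ⟨i, hi, rfl⟩ := mem_rg_resS.1 hz
    exact (c2.1 i (hEρ hi)).2.2.2.1
  · intro i hi
    exact ZFSet.mem_sUnion.2 ⟨_, mem_rg_resS.2 ⟨i, hi, rfl⟩, ZFSet.mem_insert_iff.2 (Or.inl rfl)⟩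

end BS47

open BS47

theorem pf_BS (hAB : T_AB) (hAC : T_AC) (hAD : T_AD) (hAF : T_AF) (hAG : T_AG) (hBA : T_BA)
    (hBC : T_BC) (hBD : T_BD) (hBE : T_BE) (hBJ : T_BJ) (hBK : T_BK) (hBL : T_BL) (hBO : T_BO)
    (hBQ : T_BQ) (hBR : T_BR) : T_BS := by
  intro D hD ρ G hNρ hc hρH hG
  have k : ZFm D.N := hD.zfc.toZFCm.toZFm
  obtain ⟨ab1, ab2, ab3⟩ := hAB
  obtain ⟨j1, j2, j3, j4, j5⟩ := hBJ D hD
  obtain ⟨-, j7⟩ := j5 ρ hNρ hc
  obtain ⟨⟨w1, w2, w3, w4, w5⟩, ⟨f1, f2, f3, f4, f5⟩, dens⟩ := j7 G hG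
  have hNP : D.N (D.P ρ) := (j4 ρ hNρ).1
  have hNR : D.N (D.R ρ) := (j4 ρ hNρ).2
  obtain ⟨bc1, -, -, bc4, -⟩ := hBC
  obtain ⟨-, -, -, -, bd5, -, bd7, -⟩ := hBD
  have hdmP : ∀ p ∈ D.P ρ, dm p ⊆ ρ ∧ (dm p : Set V).Finite := by
    intro p hp
    obtain ⟨h1, h2, -⟩ := (bc4 D.L ρ p).1 hp
    exact ⟨h2, (bc1 p h1).2.1⟩
  constructor
  · intro y hy hyR
    obtain ⟨τ, hτ, rfl⟩ := hy
    obtain ⟨Y, hNY, hY, hY'⟩ := (hBO D hD ρ hNρ hc).1 τ hτ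
    have hev : ev G Y = val G τ := (hY' G hG).1 hyR
    have hTr : Tr ρ := (hBA.2.2.2.2.2.2 D.L ρ hc).1
    obtain ⟨-, -, bk3, -⟩ := (hBK D hD ρ G hNρ hc hG).1 ρ Y hNρ (fun _ h => h) hTr hNY hY
    rw [hev] at bk3
    obtain ⟨-, -, -, -, -, -, sqH, -, -, -⟩ := hBR D hD
    have hNsq : D.N sq := j3 sq sqH
    have hNF : D.N (FS (D.P ρ) Y sq) := FS_mem k hNP hNY hNsq
    have hFn : ∀ n ∈ om, app (FS (D.P ρ) Y sq) n = Fn n (D.P ρ) Y sq := fun n hn =>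
      app_resS hn
    obtain ⟨X0, x1, x2, x3⟩ := hBQ D hD ρ hNρ hc (FS (D.P ρ) Y sq) hNF (by
      intro n hn q hq
      rw [hFn n hn] at hq
      exact (ZFSet.mem_sep.1 hq).1)
    have hNX0 : D.N X0 := (hAC D.N k).1 X0 x1
    -- the countable set of labels
    have hC1 : Ctbl D.N (rg (resS X0 fun p => dm p)) :=
      (hAC D.N k).2.2.2.2.2 X0 _ (resdm_mem k hNX0) (svl_resS _ _) x1 (by rw [dm_resS])
    have hC2 : Ctbl D.N (⋃₀ (rg (resS X0 fun p => dm p)) : ZFSet) := by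
      refine hAD D.N hD.zfc.toZFCm _ hC1 ?_
      intro x hx
      obtain ⟨p, hp, rfl⟩ := mem_rg_resS.1 hx
      obtain ⟨h1, h2⟩ := hdmP p (x2 hp)
      exact (ab3 D.N k ρ (dm p) hNρ h1 h2).2
    obtain ⟨s, s1, s2, s3, s4⟩ := supp hAC hBA hBJ hBR D hD ρ _ hc hρH hC2 (by
      intro i hi
      obtain ⟨z, hz, hiz⟩ := ZFSet.mem_sUnion.1 hi
      obtain ⟨p, hp, rfl⟩ := mem_rg_resS.1 hz
      exact (hdmP p (x2 hp)).1 hiz)
    refine ⟨s, s1, s2, s3, ?_⟩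
    have hNs : D.N s := j3 s s1
    have hTs : Tr s := (hBA.2.2.2.2.2.2 D.L s s3).1
    obtain ⟨l1, l2, l3, l4, -⟩ := (hBL D hD ρ G hNρ hc hG).2 s hNs s2 hTs
    obtain ⟨⟨v1, v2, v3, -, -⟩, -⟩ := (j5 s hNs s3).2 (gs G s) l1
    have kW : ZFm (D.W (gs G s)) := v1.toZFCm.toZFm
    have hval : val G τ = Vl sq (gs G s) X0 Y := by
      apply ZFSet.ext
      intro z
      constructor
      · intro hz
        obtain ⟨a, ha, b, hb, rfl⟩ := ZFSet.mem_prod.1 (hyR.1 hz)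
        obtain ⟨m, rfl⟩ := mem_om.1 ha
        -- a condition in `G ∩ X0 ∩ F (m + 1)`
        have hn : nS (m + 1) ∈ om := mem_om.2 ⟨m + 1, rfl⟩
        obtain ⟨r, hr1, hr2, -⟩ := dens (Xd (D.P ρ) X0 (Fn (nS (m + 1)) (D.P ρ) Y sq) (D.R ρ)) ∅
          (Xd_mem k hNP hNX0 (by
            have := (Tm.app (Tm.var 0) (Tm.nS (m + 1))).1 D.N k _ (in1 k hNF)
            have h2 : D.N (app (FS (D.P ρ) Y sq) (nS (m + 1))) := this
            rwa [hFn _ hn] at h2) hNR) f2 (by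
            intro q hq _
            obtain ⟨q', hq', hle, b', hb', hb''⟩ := hY.den (nS (m + 1)) hn q hq
            obtain ⟨q1, -, b1, hb1, he⟩ := hY.sub _ hb''
            obtain ⟨rfl, rfl⟩ := ZFSet.pair_injective he
            have hq'F : q' ∈ app (FS (D.P ρ) Y sq) (nS (m + 1)) := by
              rw [hFn _ hn]
              exact ZFSet.mem_sep.2 ⟨hq', _, hb1, hb', hb''⟩
            obtain ⟨q2, hq2, hq2', hcmp⟩ := x3 _ hn q' hq'F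
            rw [hFn _ hn] at hq2'
            obtain ⟨e1, e2, e3, -⟩ := (hBE D.L ρ q' q2 hc hq' (x2 hq2)).1 hcmp
            refine ⟨jn q2 q', ZFSet.mem_sep.2 ⟨e1, q2, hq2, hq2', ?_⟩, e1, ?_⟩
            · exact (bd7 D.L ρ _ _).2 ⟨e1, x2 hq2, e2⟩
            · exact bd5 D.L ρ q q' _ hq hq' e1 e3 hle)
        obtain ⟨hrP, q, hqX, hqF, hrq⟩ := ZFSet.mem_sep.1 hr2
        obtain ⟨-, hqP, hle⟩ := (bd7 D.L ρ _ _).1 hrq
        have hqG : q ∈ G := f3 r hr1 q hqP hle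
        obtain ⟨-, b', hb', hdm, hqb⟩ := ZFSet.mem_sep.1 hqF
        have hsub : b' ⊆ val G τ := (bk3 b' hb').2 ⟨q, hqG, hqb⟩
        obtain ⟨n', hn'⟩ := (hAF.1 b').1 hb'
        have hd' : dm b' = nS n' := (hAF.2.2.2.2.1 n' b' hn').2.2.1
        have hnn : n' = m + 1 := nS_inj.1 (hd'.symm.trans hdm)
        have hrs : b' = rs (val G τ) (nS n') := (hAG.2.1 (val G τ) n' b' hyR hn').1 hsub
        unfold Vl
        refine ZFSet.mem_sUnion.2 ⟨b', ZFSet.mem_sep.2 ⟨hb', q, ?_, hqX, hqb⟩, ?_⟩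
        · refine (l4 q).2 ⟨hqG, ?_⟩
          intro i hi
          exact s4 (ZFSet.mem_sUnion.2 ⟨dm q, mem_rg_resS.2 ⟨q, hqX, rfl⟩, hi⟩)
        · rw [hrs, hnn]
          refine ZFSet.mem_sep.2 ⟨hz, ?_⟩
          rw [fst_pair, nS_succ]
          exact ZFSet.mem_insert_iff.2 (Or.inl rfl)
      · intro hz
        unfold Vl at hz
        obtain ⟨b', hb', hz'⟩ := ZFSet.mem_sUnion.1 hz
        obtain ⟨hb1, q, hq, hqX, hqb⟩ := ZFSet.mem_sep.1 hb'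
        exact (bk3 b' hb1).2 ⟨q, l2 hq, hqb⟩ hz'
    rw [hval]
    exact Vl_mem kW (v2 _ hNsq) v3 (v2 _ hNX0) (v2 _ hNY)
  · intro p hp
    obtain ⟨h1, h2⟩ := hdmP p hp
    exact supp hAC hBA hBJ hBR D hD ρ (dm p) hc hρH (ab3 D.N k ρ (dm p) hNρ h1 h2).2 h1

end SE
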